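import Pool.Agent.V11231.APF.Fin

/-!
# All-pairs shortest paths by circuits with unreliable negated weights

The definitions used in the statement are in `Pool/Agent/V11231/APF/Defs.lean` (`WeightNetwork`:
circuits of nondecreasing real gates of any fan-in, for instance `min` and `+`, on the weights of the
edges and the negated weights, with an output gate for each pair of vertices; `wires`: the number of
wires; `output`: the output for a pair of vertices, if the negated weights of the edges in `Z` are
stuck at `-1`; `upperProb`, `belowProb`) and `Pool/Agent/H587R2/MRB/APSPDefs.lean` (`dist`: the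
smallest length of a walk).

Idea of the proof. Let `M` be the hard matrix for circuits with unreliable negations that compute
the products `M v_1, ..., M v_N` (`MP_5359c6_lc`, `FaultyNegations`). In the graph with the layers
`I`, `K`, `J`, whose edges of weight `1` are the pairs `(i, k)` with `M i k = 1` and `(k, j)` with
`v_j k = 1`, the distance from `i` to `j` is `2` if the entry `i` of `M v_j` is `1`, and at least `W`
otherwise. The faults of the other edges are part of the randomness of the circuits for the
products.
-/

set_option autoImplicit false

namespace Pool.Agent.Results.MP_885423_lc.FaultyNegations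

open Pool.Agent.V11231.APF
open Pool.Agent.H587R2.MRB (dist)

/-- Let `n ≥ 2`, `D ≥ 1`, `α ≥ 1`, `W > 2 α` and `1600 D log₂ n ≤ n`. Let `C` be a finite family of
circuits of nondecreasing real gates on the weights of the edges of the complete directed graph on
`n` vertices and on the negated weights. Suppose that for all weights in `{1, W}` and all pairs
`u ≠ v` the output for `(u, v)`

* is at most `α` times the distance from `u` to `v` with probability at least `4 / 5`, even if each
  negated weight is stuck at `-1` independently with probability `1 / D`,
* is less than the distance with probability at most `1 / 4`, without faults.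

Then the average number of wires of the circuits is at least `n ^ 3 / (10 ^ 5 D (log₂ n) ^ 2)`. -/
theorem result (n D W : ℕ) (α : ℝ) (hn : 2 ≤ n) (hD : 1 ≤ D) (hα : 1 ≤ α) (hW : 2 * α < W)
    (hlog : 1600 * D * Real.logb 2 n ≤ n) (R : Type) [Fintype R] [Nonempty R]
    (C : R → WeightNetwork n)
    (h1 : ∀ w : Fin n → Fin n → ℕ, (∀ u v, w u v = 1 ∨ w u v = W) → ∀ u v, u ≠ v →
      4 / 5 ≤ upperProb C D α w u v)
    (h2 : ∀ w : Fin n → Fin n → ℕ, (∀ u v, w u v = 1 ∨ w u v = W) → ∀ u v, u ≠ v →
      belowProb C w u v ≤ 1 / 4) :
    (n : ℝ) ^ 3 ≤ 10 ^ 5 * D * Real.logb 2 n ^ 2 *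
      ((∑ ρ, ((C ρ).wires : ℝ)) / Fintype.card R) :=
  apsp_fault n D W α hn hD hα hW hlog C h1 h2

end Pool.Agent.Results.MP_885423_lc.FaultyNegations
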