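import Pool.Agent.V11177.TN.Apsp

/-!
# APSP verification needs many reads or much memory: circuits of small formal degree

The inputs are weights of the arcs of the complete directed graph with `n` vertices, given in binary;
the weights are among `1, 2, 3, 4`. The task is to decide whether the weights are the distances
(`IsDist`: no walk from `x` to `y` is shorter than the arc from `x` to `y`; equivalently the weights
satisfy the triangle inequality, `isDist_iff`). This is answered by every algorithm for all-pairs
shortest paths, and is known to be equivalent to APSP under subcubic reductions (Vassilevska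
Williams and Williams).

The circuits (`Circ`, `Pool/Agent/W896/RK/Defs.lean`) have conjunctions of two gates, disjunctions of
any number of gates and negations at the inputs; the formal degree in an input bit bounds the number
of times a proof tree of the circuit reads this bit. Nondeterministic programs (branching programs,
also with a stack) which read a bit at most `k` times in every accepting computation and have `w`
bits of memory give such circuits with `2 ^ (O (w))` gates and degree `k` in this bit; so do DNNFs.

If the least significant bits of the weights of the arcs which leave one vertex `u` are read at most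
`k` times on average (all the other bits may be read as often as one likes), the circuits have
`2 ^ (n / 2 ^ (O (k)))` gates, also if every closed matrix is accepted only by a tiny fraction of the
circuits of a random family with one-sided error. With `2 ^ (n ^ (1 - ε))` gates the least
significant bits at every vertex have to be read `Ω (ε n log n)` times, all together
`Ω (ε n² log n)` times.

**Proof.** The arcs from `u` have the weights `1` or `2` (to the first ends of hidden pairs) and `3` or
`4` (to the second ends); the hidden pairs are coded by arcs of weight `2`, the other arcs have weight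
`3`. A path through a hidden pair is a shortcut if and only if the weights are `1` and `4`
(`Pool/Agent/V11177/TN/Met.lean`). Then the theorem on hidden pairs of the library
(`Pool.Agent.W896.FD.Star.final`) applies.
-/

set_option autoImplicit false

namespace Pool.Agent.Results.MP_885423_lc.FormalDegree

open Pool.Agent.W896.RK Pool.Agent.V11177.TN.Met

/-- The bits `(x, y, false)` and `(x, y, true)` code the weight of the arc from `x` to `y`; `IsDist I`:
the weights coded by `I` are the distances.

(1) Let `U r` (`r` in a finite nonempty set) be circuits. Suppose that an instance accepted by one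
of them is always one whose weights are the distances, and that every such instance is accepted by
at least a `2 ^ (- ⌊n / 2 ^ (180 (k + 1))⌋)` fraction of them. If the formal degrees of each `U r` in
the least significant bits of the weights of the arcs which leave the vertex `u` have a sum of at
most `k n`, then some `U r` has `g` gates with `n ≤ 2 ^ (180 (k + 1)) (⌊log₂ g⌋ + 1)`.

(2) For `0 < ε ≤ 1` and all large `n`: if such a family has at most `2 ^ w` gates and acceptance
probability at least `2 ^ (- μ)`, where `w, μ ≤ n ^ (1 - ε)`, then for every vertex `u` some `U r`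
has formal degrees in these bits with a sum of at least `(ε / 540) n log₂ n`.

(3) For `0 < ε ≤ 1` and all large `n`: for a single circuit with at most `2 ^ w` gates,
`w ≤ n ^ (1 - ε)`, which accepts exactly the instances whose weights are the distances the formal
degrees in all the least significant bits have a sum of at least `(ε / 540) n² log₂ n`. -/
theorem result :
    (∀ (k n : ℕ) (u : Fin n) (R : Type) [Fintype R] [Nonempty R] (U : R → Circ (Pos n)),
      (∀ r I, (U r).Val I (U r).out → IsDist I) →
      (∀ I, IsDist I →
        Nat.card R ≤ 2 ^ (n / 2 ^ (180 * (k + 1))) * Nat.card {r // (U r).Val I (U r).out}) →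
      (∀ r, ∃ d : (U r).G → Pos n → ℕ, IsDeg (U r) id d ∧
        ∑ v, d (U r).out (u, v, false) ≤ k * n) →
      ∃ r, n ≤ 2 ^ (180 * (k + 1)) * (Nat.log 2 (Fintype.card (U r).G) + 1)) ∧
    (∀ ε : ℝ, 0 < ε → ε ≤ 1 → ∃ n₀ : ℕ, ∀ n ≥ n₀,
      ∀ w μ : ℕ, (w : ℝ) ≤ (n : ℝ) ^ (1 - ε) → (μ : ℝ) ≤ (n : ℝ) ^ (1 - ε) →
      ∀ (R : Type) [Fintype R] [Nonempty R] (U : R → Circ (Pos n))
        (d : ∀ r, (U r).G → Pos n → ℕ),
        (∀ r, IsDeg (U r) id (d r)) → (∀ r, Fintype.card (U r).G ≤ 2 ^ w) →
        (∀ r I, (U r).Val I (U r).out → IsDist I) →
        (∀ I, IsDist I → Nat.card R ≤ 2 ^ μ * Nat.card {r // (U r).Val I (U r).out}) →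
        ∀ u, ∃ r, ε / 540 * (n * Real.logb 2 n) ≤ (∑ v, d r (U r).out (u, v, false) : ℕ)) ∧
    ∀ ε : ℝ, 0 < ε → ε ≤ 1 → ∃ n₀ : ℕ, ∀ n ≥ n₀,
      ∀ w : ℕ, (w : ℝ) ≤ (n : ℝ) ^ (1 - ε) →
      ∀ (U : Circ (Pos n)) (d : U.G → Pos n → ℕ), IsDeg U id d → Fintype.card U.G ≤ 2 ^ w →
        (∀ I, U.Val I U.out ↔ IsDist I) →
        ε / 540 * (n ^ 2 * Real.logb 2 n) ≤
          (∑ e : Fin n × Fin n, d U.out (e.1, e.2, false) : ℕ) :=
  ⟨fun k n u R _ _ U hU hc hd => deg_vertex k n u R U hU hc hd,
    fun _ hε hε1 => deg_asym hε hε1, fun _ hε hε1 => deg_total hε hε1⟩

end Pool.Agent.Results.MP_885423_lc.FormalDegree
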