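import Pool.Agent.V11228.KApspD

/-!
# Distances need many reads or much memory even if the graph is known in advance

The inputs are the bits of a digraph with weights `1`, `2` and `3` (`Bt`, `wt`, `Valid`,
`Pool/Agent/V11163/NT/AP.lean`, by another helper): the edge flags, and the weights in binary. We
fix, once and for all, a partition of the `2 q + 2 n` vertices into a set `S` of `q` sources, a set
`T` of `q` targets and two sets `A` and `B` of `n` vertices, and a sparse set `G` of pairs in
`A × B` (`Plan`, `Pool/Agent/V11228/KApspD.lean`); and we consider only the inputs in which the arcs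
are all pairs in `S × A`, all pairs in `B × T`, and those in `G`, the weights of the arcs in `G` are
one, and the weights of the other arcs are `2` or `3` (`Plan.Input`). So all bits of the input are known in advance but the least significant
bits of the weights of the arcs at the sources and at the targets, and the algorithms may depend on
the graph in an arbitrary way (every preprocessing is free of charge). Two models of computation are
considered.

* Circuits with AND gates of fan-in two, OR gates of any fan-in and negations at the inputs
  (nondeterministic branching programs and programs with a stack are of this kind). The formal degree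
  in an input bit is the largest number of leaves with this bit in a proof tree.
* Tree tensor networks: every leaf of a binary tree reads one bit and holds a vector, depending on
  the bit, with coordinates in `L`, every inner node combines the vectors of its children by any
  bilinear map; an input is accepted if a linear form of the vector of the root is not zero.
  Contributions of different computations may cancel; the field is arbitrary.

For a source `s` and a target `t` they have to reject the inputs of this kind in which the distance
from `s` to `t` is at most five, and to accept those in which ALL distances from sources to targets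
are at least six. (So it does not matter whether the algorithm computes this one distance, or decides
whether all distances from the sources to the targets are at least six.) They may be random with
one-sided error, and accept with exponentially small probability. If the `2 n` unknown bits of the
arcs at `s` and at `t` are read at most `k n` times in total (all the other bits may be read as often
as one likes) then the memory is at least `n / 2 ^ (O (k))`. With a memory of `n ^ (1 - ε)` bits one
needs `Ω (ε n log n)` reads of these bits, for every `s` and `t`, and `Ω (ε q n log n)` reads of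
unknown bits in total.

In the results which were known for these models and this problem (`FormalDegree` and
`TensorNetworks` by other helpers) the weights of the hard instances code a matching which is chosen
at random after the reads are fixed, so that the graph is not known in advance.

**Proof.** The set `G` is a sparse bipartite graph chosen at random once and for all; every two sets
of `n / 2 ^ (O (k))` vertices of the two sides are joined by an arc. All unknown weights but those of
the arcs at `s` and `t` are three; a walk of weight at most five from `s` to `t` has to use two arcs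
of weight two and an arc in `G`. If the computation is divided into few pieces and these into two
sides, there is a large matching in `G` between the vertices whose bits are read on the one side only
and those whose bits are read on the other side only. The theorems of the modules
`Pool/Agent/V11228/OMv*.lean` (my results on matrix-vector products with a fixed matrix) give the
bounds.
-/

set_option autoImplicit false

open Finset

namespace Pool.Agent.Results.MP_885423_lc.KnownGraph

open Pool.Agent.W896.RK Pool.Agent.W896.FD Pool.Agent.TH700.TN Pool.Agent.V11228.KApsp
open Pool.Agent.V11163.NT.AP (Bt wt Far Valid)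

/-- The bits of a weighted digraph are `((u, v), none)` (is there an arc from `u` to `v`?) and
`((u, v), some j)` (the digit of the weight of the arc with the value `2 ^ j`), `j ≤ w + 1`.
`Far x s t 6` says that every walk from `s` to `t` has weight at least six. A plan `Γ : Plan q n`
consists of a partition of `2 q + 2 n` vertices into sets `Γ.S`, `Γ.A`, `Γ.B`, `Γ.T` of `q`, `n`, `n`
and `q` vertices, and of a set `Γ.G ⊆ Γ.A × Γ.B`. `Γ.Input x` says that the arcs are the pairs in
`Γ.G`, `Γ.S × Γ.A` and `Γ.B × Γ.T`, that the arcs in `Γ.G` have weight one and the other arcs have
weight two or three (and the bits for the weights of the other pairs hold the number two).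
`Γ.AllFar x` says that all distances from `Γ.S` to `Γ.T` are at least six. `Γ.Right s t μ acc`: no
algorithm `acc r` accepts an input of this kind in which the distance from `s` to `t` is less than
six, and the inputs of this kind with `Γ.AllFar x` are accepted by at least the fraction `2 ^ (- μ)`
of them. `Γ.at s t f` is the sum of `f` over the least significant bits of the weights of the arcs
from `s` to `Γ.A` and from `Γ.B` to `t`, and `Γ.tot f` the sum of `f` over the least significant bits
of all arcs in `Γ.S × Γ.A` and `Γ.B × Γ.T`.

(1) All these inputs are digraphs with weights `1`, `2`, `3`.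

(2) For all `k`, `n` and `q` there is a plan with `|G| ≤ 2 ^ (16 k + 26) n` such that for every
`s ∈ S` and `t ∈ T`:
(a) let `U r` (`r` in a finite nonempty set) be circuits which are right for `s`, `t` with acceptance
probability `2 ^ (- ⌊n / 2 ^ (70 (k + 1))⌋)`; if in each `U r` the formal degrees in the least
significant bits of the weights of the arcs from `s` to `A` and from `B` to `t` sum up to at most
`k n`, then some `U r` has `g` gates with `n ≤ 2 ^ (70 (k + 1)) (⌊log₂ g⌋ + 1)`;
(b) the same is true for tree tensor networks over any fields with at most `k n` leaves which read
these bits, with the bond dimension `|L r|` in place of `g`.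

(3) For `0 < ε ≤ 1`, all large `n` and all `q` there is a plan with `|G| ≤ n ^ (1 + ε)` such that for
all `m, μ ≤ n ^ (1 - ε)`:
(a), (b) circuits with at most `2 ^ m` gates, or networks of bond dimension at most `2 ^ m`, which are
right for `s`, `t` with acceptance probability `2 ^ (- μ)` have degrees, or numbers of leaves, whose
sum over the bits at `s` and `t` is at least `(ε / 210) n log₂ n` for some `r`;
(c) every circuit with at most `2 ^ m` gates that decides for the inputs of this kind whether all
distances from `S` to `T` are at least six has degrees whose sum over all the unknown bits is at least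
`(ε / 210) q n log₂ n`;
(d) the same is true for the numbers of the leaves of a network of bond dimension at most `2 ^ m` with
linear forms for all pairs `s`, `t`, each of which is not zero if all distances from `S` to `T` are
at least six, and zero if the distance from `s` to `t` is less than six. -/
theorem result :
    (∀ (q n w : ℕ) (Γ : Plan q n) (x : Bt (2 * q + 2 * n) w → Bool), Γ.Input x → Valid 3 x) ∧
    (∀ k n q : ℕ, ∃ Γ : Plan q n, Γ.G.card ≤ 2 ^ (16 * k + 26) * n ∧
      ∀ (w : ℕ), ∀ s ∈ Γ.S, ∀ t ∈ Γ.T, ∀ (R : Type) [Fintype R] [Nonempty R],
      (∀ U : R → Circ (Bt (2 * q + 2 * n) w),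
        Γ.Right s t (n / 2 ^ (70 * (k + 1))) (fun r x => (U r).Val x (U r).out) →
        (∀ r, ∃ d : (U r).G → Bt (2 * q + 2 * n) w → ℕ,
          IsDeg (U r) id d ∧ Γ.at s t (d (U r).out) ≤ k * n) →
        ∃ r, n ≤ 2 ^ (70 * (k + 1)) * (Nat.log 2 (Fintype.card (U r).G) + 1)) ∧
      (∀ (K L : R → Type) [∀ r, Field (K r)] [∀ r, Fintype (L r)]
          (P : ∀ r, Net (K r) (Bt (2 * q + 2 * n) w) (L r)) (a : ∀ r, L r → K r),
        Γ.Right s t (n / 2 ^ (70 * (k + 1))) (fun r x => (P r).value (a r) x ≠ 0) →
        (∀ r, Γ.at s t (P r).reads ≤ k * n) →
        ∃ r, n ≤ 2 ^ (70 * (k + 1)) * (Nat.log 2 (Fintype.card (L r)) + 1))) ∧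
    ∀ ε : ℝ, 0 < ε → ε ≤ 1 → ∃ n₀ : ℕ, ∀ n ≥ n₀, ∀ q : ℕ,
      ∃ Γ : Plan q n, (Γ.G.card : ℝ) ≤ (n : ℝ) ^ (1 + ε) ∧
      ∀ w m μ : ℕ, (m : ℝ) ≤ (n : ℝ) ^ (1 - ε) → (μ : ℝ) ≤ (n : ℝ) ^ (1 - ε) →
      (∀ s ∈ Γ.S, ∀ t ∈ Γ.T, ∀ (R : Type) [Fintype R] [Nonempty R],
        (∀ U : R → Circ (Bt (2 * q + 2 * n) w), (∀ r, Fintype.card (U r).G ≤ 2 ^ m) →
          Γ.Right s t μ (fun r x => (U r).Val x (U r).out) →
          ∃ r, ∀ d : (U r).G → Bt (2 * q + 2 * n) w → ℕ, IsDeg (U r) id d →
            ε / 210 * (n * Real.logb 2 n) ≤ Γ.at s t (d (U r).out)) ∧
        (∀ (K L : R → Type) [∀ r, Field (K r)] [∀ r, Fintype (L r)]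
            (P : ∀ r, Net (K r) (Bt (2 * q + 2 * n) w) (L r)) (a : ∀ r, L r → K r),
          (∀ r, Fintype.card (L r) ≤ 2 ^ m) →
          Γ.Right s t μ (fun r x => (P r).value (a r) x ≠ 0) →
          ∃ r, ε / 210 * (n * Real.logb 2 n) ≤ Γ.at s t (P r).reads)) ∧
      (∀ U : Circ (Bt (2 * q + 2 * n) w), Fintype.card U.G ≤ 2 ^ m →
        (∀ x, Γ.Input x → (U.Val x U.out ↔ Γ.AllFar x)) →
        ∀ d : U.G → Bt (2 * q + 2 * n) w → ℕ, IsDeg U id d →
          ε / 210 * (q * n * Real.logb 2 n) ≤ Γ.tot (d U.out)) ∧
      (∀ (K L : Type) [Field K] [Fintype L] (P : Net K (Bt (2 * q + 2 * n) w) L),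
        Fintype.card L ≤ 2 ^ m →
        (∀ s ∈ Γ.S, ∀ t ∈ Γ.T, ∃ a : L → K, ∀ x, Γ.Input x →
          (P.value a x ≠ 0 → Far x s t 6) ∧ (Γ.AllFar x → P.value a x ≠ 0)) →
          ε / 210 * (q * n * Real.logb 2 n) ≤ Γ.tot P.reads) :=
  ⟨fun _ _ _ _ _ hx => valid_known hx, main', fun _ hε hε1 => asymp' hε hε1⟩

end Pool.Agent.Results.MP_885423_lc.KnownGraph
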