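import Pool.Agent.V11163.NT.AP

/-!
# Distances need many reads or much memory: tree tensor networks

The inputs are the bits of the weighted adjacency matrix of a directed graph with `n` vertices: for
each pair a bit which says whether it is an edge, and the binary digits of its weight. A tree tensor
network (`Net`, `Pool/Agent/TH700/TN/Defs.lean`) is a binary tree. Every leaf reads one bit and holds
a vector for each of its two values; every inner node combines the vectors of its children by an
arbitrary bilinear map; the output is a linear form of the vector of the root (there may be many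
outputs). The coefficients are in any field; the dimension `|W|` of the vectors is the bond dimension,
its logarithm is the memory. A bit may be read by many leaves. Matrix products (weighted automata and
oblivious algebraic branching programs of width `|W|`), dynamic programming over any tree of the
input bits, and the counting of solutions modulo a prime by such programs are of this kind; the
contributions of different computations may cancel.

We consider the distance from `s` to `t` for ONE pair of vertices, for edge weights in `{1, 2, 3}`
(or up to any bound `L ≥ 3`), and ask only for an output which is zero if the distance is five, and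
not zero if it is six. If the least significant bits of the weights of the `2 n` pairs `(s, v)` and
`(v, t)` are read at most `k` times on average, while all the other bits may be read as often as one
likes, then the memory is at least `n / 2 ^ (O (k))`; this remains true for random networks which are
always zero for distance five, and nonzero with exponentially small probability for distance six. So
with a memory of `n ^ (1 - ε)` bits the least significant bits at `s` and `t` are read
`Ω (ε n log n)` times; and if the network has such outputs for all pairs then it has
`Ω (ε n ^ 2 log n)` leaves for least significant bits. For one pair and constant `k` the bound is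
optimal up to the constant factor.

**Proof.** The tree is cut into `O (k ^ 2)` pieces, each of which reads only few of the bits in
question which are not read too often; the output is a sum of `|W| ^ (O (k ^ 2))` products of
functions of the pieces (`net_pd`). A coloring of the pieces by two sides gives two linear sets of
indices whose bits are read on one side only (`exists_color`), and a random matching has many pairs
which cross. For `m = (n - 2) / 2` there are edges `s → a_v` and `b_v → t` with the weight
`2 + x_v`, and edges `a_v → b_v'` with the weight one for the pairs of the matching. So the distance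
is five if `x_v = x_v' = 0` for some pair `(v, v')`, and six if `x_v + x_v' = 1` for all pairs. If all
bits but those of the crossing pairs are fixed, the outputs form a matrix of rank at most
`|W| ^ (O (k ^ 2))` in which all entries `(z, z)` of many `z` are not zero, while for `z ≠ z'` one of
the entries `(z, z')` and `(z', z)` is zero; so the Hadamard product of the matrix with its transpose
is diagonal on these rows, and its rank is at most the square (`rank_sq`).
-/

set_option autoImplicit false

namespace Pool.Agent.Results.MP_885423_lc.TensorNetworks

open Pool.Agent.TH700.TN Pool.Agent.V11163.NT.AP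

/-- The bit `((u, v), none)` says whether there is an edge from `u` to `v`, and `((u, v), some j)` is
the digit of its weight with the value `2 ^ j` (there are `m + 2` digits). `Valid L` says that the
weights are between `1` and `L`, `Dist x s t D` that the distance from `s` to `t` is `D`, and
`Far x s t D` that it is at least `D` (or infinite). Let `L ≥ 3` and `s ≠ t`.

(1) Let `T r` (`r` in a finite nonempty set) be tree tensor networks over fields `K r`, with vectors
indexed by `W r` and output vectors `a r`. Suppose that all outputs are zero if the distance from `s`
to `t` is five, and that for each graph with distance six at least a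
`2 ^ (- ⌊n / 2 ^ (240 (k + 1))⌋)` fraction of the outputs is not zero. If each `T r` has at most `k n`
leaves which read least significant bits of the weights of the pairs `(s, v)` and `(v, t)`, then
`n ≤ 2 ^ (240 (k + 1)) (⌊log₂ |W r|⌋ + 1)` for some `r`.

(2) For `0 < ε ≤ 1`, all large `n` and all `s ≠ t`: if such a family has bond dimensions at most
`2 ^ w` and for distance six a nonzero output with probability at least `2 ^ (- μ)`, where
`w, μ ≤ n ^ (1 - ε)`, then some `T r` has at least `(ε / 720) n log₂ n` leaves which read least
significant bits of the weights of the pairs `(s, v)` and `(v, t)` (those of `(s, t)` count twice).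

(3) For `0 < ε ≤ 1` and all large `n`: if a network with bond dimension at most `2 ^ w`, where
`w ≤ n ^ (1 - ε)`, has for all `s ≠ t` an output which is zero if the distance from `s` to `t` is
five, and not zero if it is six, then it has at least `(ε / 1440) n ^ 2 log₂ n` leaves which read
least significant bits of weights.

(4) For every field, `D`, `s` and `t` there is a network with bond dimension at most `2 ^ (2 n) + 1`
with one leaf for the least significant bit of the weight of each pair `(s, v)` and `(v, t)` whose
output is not zero if and only if the distance from `s` to `t` is at least `D` (or infinite). -/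
theorem result :
    (∀ k n m L : ℕ, 3 ≤ L → ∀ s t : Fin n, s ≠ t →
      ∀ (R : Type) [Fintype R] [Nonempty R] (K W : R → Type) [∀ r, Field (K r)]
        [∀ r, Fintype (W r)] (T : ∀ r, Net (K r) (Bt n m) (W r)) (a : ∀ r, W r → K r),
        (∀ r x, Valid L x → Dist x s t 5 → (T r).value (a r) x = 0) →
        (∀ x, Valid L x → Dist x s t 6 → Nat.card R ≤
          2 ^ (n / 2 ^ (240 * (k + 1))) * Nat.card {r // (T r).value (a r) x ≠ 0}) →
        (∀ r, ∑ v, (T r).reads ((s, v), some 0) + ∑ v, (T r).reads ((v, t), some 0) ≤ k * n) →
        ∃ r, n ≤ 2 ^ (240 * (k + 1)) * (Nat.log 2 (Fintype.card (W r)) + 1)) ∧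
    (∀ ε : ℝ, 0 < ε → ε ≤ 1 → ∃ n₀ : ℕ, ∀ n ≥ n₀,
      ∀ m L w μ : ℕ, 3 ≤ L → (w : ℝ) ≤ (n : ℝ) ^ (1 - ε) → (μ : ℝ) ≤ (n : ℝ) ^ (1 - ε) →
      ∀ s t : Fin n, s ≠ t →
      ∀ (R : Type) [Fintype R] [Nonempty R] (K W : R → Type) [∀ r, Field (K r)]
        [∀ r, Fintype (W r)] (T : ∀ r, Net (K r) (Bt n m) (W r)) (a : ∀ r, W r → K r),
        (∀ r, Fintype.card (W r) ≤ 2 ^ w) →
        (∀ r x, Valid L x → Dist x s t 5 → (T r).value (a r) x = 0) →
        (∀ x, Valid L x → Dist x s t 6 →
          Nat.card R ≤ 2 ^ μ * Nat.card {r // (T r).value (a r) x ≠ 0}) →
        ∃ r, ε / 720 * (n * Real.logb 2 n) ≤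
          (∑ v, (T r).reads ((s, v), some 0) + ∑ v, (T r).reads ((v, t), some 0) : ℕ)) ∧
    (∀ ε : ℝ, 0 < ε → ε ≤ 1 → ∃ n₀ : ℕ, ∀ n ≥ n₀,
      ∀ m L w : ℕ, 3 ≤ L → (w : ℝ) ≤ (n : ℝ) ^ (1 - ε) →
      ∀ (K W : Type) [Field K] [Fintype W] (T : Net K (Bt n m) W)
        (a : Fin n → Fin n → W → K), Fintype.card W ≤ 2 ^ w →
        (∀ s t x, s ≠ t → Valid L x → Dist x s t 5 → T.value (a s t) x = 0) →
        (∀ s t x, s ≠ t → Valid L x → Dist x s t 6 → T.value (a s t) x ≠ 0) →
        ε / 1440 * (n ^ 2 * Real.logb 2 n) ≤ (∑ e, T.reads (e, some 0) : ℕ)) ∧
    ∀ (K : Type) [Field K] (n m D : ℕ) (s t : Fin n),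
      ∃ (W : Type) (_ : Fintype W) (T : Net K (Bt n m) W) (a : W → K),
        Fintype.card W ≤ 2 ^ (2 * n) + 1 ∧ (∀ v, T.reads ((s, v), some 0) = 1) ∧
          (∀ v, T.reads ((v, t), some 0) = 1) ∧ ∀ x, T.value a x ≠ 0 ↔ Far x s t D :=
  ⟨fun k n m L hL s t hst R _ _ K W _ _ T a hU hc hd =>
      dist_pair k n m L hL s t hst R K W T a hU hc hd,
    fun _ hε hε1 => dist_asym hε hε1, fun _ hε hε1 => dist_total hε hε1,
    fun K _ n m D s t => dist_upper K n m D s t⟩

end Pool.Agent.Results.MP_885423_lc.TensorNetworks
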